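import Pool.Agent.helper28.PV.SpecS

set_option autoImplicit false

open scoped Matrix Topology
open Filter

namespace Pool.Agent.PV

open Pool.Agent.CZ

theorem HK1_wU : ((wU (ContinuousMap.id UnitAddCircle) : (Matrix Unit Unit C(UnitAddCircle, ℂ))ˣ) :
    Matrix Unit Unit C(UnitAddCircle, ℂ)) = Matrix.of (fun _ _ => zl ℂ) := by
  ext i j x
  show (fourier 1 x : ℂ) = (fourier 1 x : ℂ) • (1 : ℂ)
  rw [smul_eq_mul, mul_one]

theorem HK1 (hMS1 : MS1_stmt) (hHEM : HEM_stmt) (hKS : KS_stmt) (hKC : KC_stmt)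
    (hKAP : KAP_stmt) (hFUN : FUN_stmt) : HK1_stmt := by
  have hj : Continuous (Algebra.ofId ℂ C(HE, ℂ)).toRingHom := by
    show Continuous (algebraMap ℂ C(HE, ℂ))
    exact continuous_algebraMap ℂ C(HE, ℂ)
  have hr : ∀ k : ℕ, Continuous (pbC ℂ (pr k)).toRingHom := hHEM.cr
  obtain ⟨hsurj, hinj⟩ := hMS1 ℕ ℂ C(HE, ℂ) C(UnitAddCircle, ℂ) (Algebra.ofId ℂ C(HE, ℂ))
    (fun k => pbC ℂ (inj k)) (fun k => pbC ℂ (pr k)) hj hr hHEM
  set κ : K1 C(UnitAddCircle, ℂ) := kap (ContinuousMap.id UnitAddCircle) with hκ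
  have hr1 : ∀ k : ℕ, k1map (pbC ℂ (pr k)).toRingHom (hr k) κ = kap (pr k) := by
    intro k
    have := hKAP.2.2.2.1 HE UnitAddCircle (pr k) (hr k) (ContinuousMap.id UnitAddCircle)
    rw [hκ, this, ContinuousMap.id_comp]
  have hN : ∀ v : K1 C(UnitAddCircle, ℂ), ∃ n : ℤ, v = n • κ := by
    intro v
    obtain ⟨n, hn⟩ := hKS.2.1 v
    exact ⟨n, hn _ HK1_wU⟩
  have hN0 : ∀ n : ℤ, n • κ = 0 → n = 0 := fun n hn => hKS.2.2 n _ HK1_wU hn
  let Φ : (ℕ →₀ ℤ) →+ K1 C(HE, ℂ) :=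
    Finsupp.liftAddHom (fun k : ℕ => (zmultiplesHom (K1 C(HE, ℂ))) (kap (pr k)))
  have hΦ : ∀ y : ℕ →₀ ℤ, Φ y = y.sum fun k n => n • kap (pr k) := fun y => rfl
  have hbij : Function.Bijective Φ := by
    constructor
    · rw [injective_iff_map_eq_zero]
      intro y hy
      rw [hΦ] at hy
      have h1 : (y.mapRange (fun n : ℤ => n • κ) (zero_smul ℤ κ)).sum
          (fun k v => k1map (pbC ℂ (pr k)).toRingHom (hr k) v) = 0 := by
        rw [Finsupp.sum_mapRange_index (fun k => map_zero _)]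
        rw [← hy]
        refine Finsupp.sum_congr fun k _ => ?_
        rw [map_zsmul, hr1]
      have h2 := (hinj 0 (y.mapRange (fun n : ℤ => n • κ) (zero_smul ℤ κ)) (by
        rw [map_zero, zero_add]; exact h1)).2
      ext k
      have h3 := DFunLike.congr_fun h2 k
      rw [Finsupp.mapRange_apply] at h3
      exact hN0 _ h3
    · intro z
      classical
      choose N hN' using hN
      obtain ⟨x, y, hz⟩ := hsurj z
      have hx : x = 0 := hKC.2.2 x
      rw [hx, map_zero, zero_add] at hz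
      let N' : K1 C(UnitAddCircle, ℂ) → ℤ := fun v => if v = 0 then 0 else N v
      have hN'0 : N' 0 = 0 := if_pos rfl
      have hN'1 : ∀ v, v = N' v • κ := by
        intro v
        by_cases hv : v = 0
        · rw [hv, hN'0, zero_smul]
        · have : N' v = N v := if_neg hv
          rw [this]
          exact hN' v
      refine ⟨y.mapRange N' hN'0, ?_⟩
      rw [hΦ, Finsupp.sum_mapRange_index (h := fun (k : ℕ) (n : ℤ) => n • kap (pr k))
        (fun k => zero_smul ℤ (kap (pr k))), hz]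
      refine Finsupp.sum_congr fun k _ => ?_
      rw [← hr1 k, ← map_zsmul, ← hN'1]
  refine ⟨AddEquiv.ofBijective Φ hbij, fun k => ?_⟩
  show Φ (Finsupp.single k 1) = kap (pr k)
  rw [hΦ, Finsupp.sum_single_index (h := fun (k : ℕ) (n : ℤ) => n • kap (pr k))
    (zero_smul ℤ (kap (pr k))), one_smul]

end Pool.Agent.PV
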