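import Pool.Agent.helper45.PV.SpecG

set_option autoImplicit false

open scoped Matrix Topology

namespace Pool.Agent.PV

open Pool.Agent.CZ

theorem KEQ (hFUN : FUN_stmt) : KEQ_stmt := by
  obtain ⟨f0, f1, -, f3, f4⟩ := hFUN
  intro A B _ _ _ _ Θ hΘ hΘ'
  let φ : A →+* B := (Θ : A →ₐ[ℂ] B).toRingHom
  let ψ : B →+* A := (Θ.symm : B →ₐ[ℂ] A).toRingHom
  have h1 : ψ.comp φ = RingHom.id A := by
    ext a
    show Θ.symm (Θ a) = a
    exact Θ.symm_apply_apply a
  have h2 : φ.comp ψ = RingHom.id B := by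
    ext b
    show Θ (Θ.symm b) = b
    exact Θ.apply_symm_apply b
  refine ⟨fun χ χ' hχ => ?_, ?_⟩
  · have e1 : χ'.toRingHom.comp φ = χ.toRingHom := by
      ext a
      exact hχ a
    have e2 : χ.toRingHom.comp ψ = χ'.toRingHom := by
      ext b
      show χ (Θ.symm b) = χ' b
      rw [← hχ, Θ.apply_symm_apply]
    have l : ∀ z, k0map ψ (k0map φ z) = z := fun z => by rw [← f1, h1, f0]
    have r : ∀ z, k0map φ (k0map ψ z) = z := fun z => by rw [← f1, h2, f0]
    refine ⟨{ toFun := fun z => ⟨k0map φ z.1, ?_⟩, invFun := fun z => ⟨k0map ψ z.1, ?_⟩,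
              left_inv := fun z => Subtype.ext (l z.1), right_inv := fun z => Subtype.ext (r z.1),
              map_add' := fun x y => Subtype.ext (map_add _ _ _) }⟩
    · rw [AddMonoidHom.mem_ker, ← f1, e1]
      exact z.2
    · rw [AddMonoidHom.mem_ker, ← f1, e2]
      exact z.2
  · have cφ : Continuous φ := hΘ
    have cψ : Continuous ψ := hΘ'
    have l : ∀ z, k1map ψ cψ (k1map φ cφ z) = z := by
      intro z
      rw [← f4 A B A φ ψ cφ cψ (cψ.comp cφ)]
      have gen : ∀ (θ : A →+* A) (hθ : Continuous θ), θ = RingHom.id A → k1map θ hθ z = z := by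
        rintro θ hθ rfl
        exact f3 A z
      exact gen _ _ h1
    have r : ∀ z, k1map φ cφ (k1map ψ cψ z) = z := by
      intro z
      rw [← f4 B A B ψ φ cψ cφ (cφ.comp cψ)]
      have gen : ∀ (θ : B →+* B) (hθ : Continuous θ), θ = RingHom.id B → k1map θ hθ z = z := by
        rintro θ hθ rfl
        exact f3 B z
      exact gen _ _ h2
    exact ⟨{ toFun := k1map φ cφ, invFun := k1map ψ cψ, left_inv := l, right_inv := r,
             map_add' := map_add _ }⟩

end Pool.Agent.PV
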