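import Pool.Agent.helper77.PV.SpecA

set_option autoImplicit false

open scoped Matrix Topology
open Filter

namespace Pool.Agent.PV

open Pool.Agent.CZ

theorem FUN_imap_id (A : Type) [Ring A] : imap (RingHom.id A) = id := by
  funext p
  rfl

theorem FUN_imap_comp {A B C : Type} [Ring A] [Ring B] [Ring C] (φ : A →+* B) (ψ : B →+* C) :
    imap (ψ.comp φ) = imap ψ ∘ imap φ := by
  funext p
  rfl

theorem FUN_gmap_id (A : Type) [Ring A] : gmap (RingHom.id A) = id := by
  funext p
  obtain ⟨n, g⟩ := p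
  show (⟨n, umap (RingHom.id A) g⟩ : InvMat A) = ⟨n, g⟩
  have h : umap (RingHom.id A) g = g := by
    ext i j
    rfl
  rw [h]

theorem FUN_gmap_comp {A B C : Type} [Ring A] [Ring B] [Ring C] (φ : A →+* B) (ψ : B →+* C) :
    gmap (ψ.comp φ) = gmap ψ ∘ gmap φ := by
  funext p
  obtain ⟨n, g⟩ := p
  show (⟨n, umap (ψ.comp φ) g⟩ : InvMat C) = ⟨n, umap ψ (umap φ g)⟩
  have h : umap (ψ.comp φ) g = umap ψ (umap φ g) := by
    ext i j
    rfl
  rw [h]

theorem FUN : FUN_stmt := by
  refine ⟨?_, ?_, ?_, ?_, ?_⟩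
  · intro A _ z
    induction z using QuotientAddGroup.induction_on with
    | H x =>
      show (QuotientAddGroup.mk (FreeAbelianGroup.map (imap (RingHom.id A)) x) : K0 A) = _
      rw [FUN_imap_id, FreeAbelianGroup.map_id_apply]
  · intro A B C _ _ _ φ ψ z
    induction z using QuotientAddGroup.induction_on with
    | H x =>
      show (QuotientAddGroup.mk (FreeAbelianGroup.map (imap (ψ.comp φ)) x) : K0 C) =
        QuotientAddGroup.mk (FreeAbelianGroup.map (imap ψ) (FreeAbelianGroup.map (imap φ) x))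
      rw [FUN_imap_comp, FreeAbelianGroup.map_comp_apply]
  · intro A B _ _ φ
    show (QuotientAddGroup.mk (FreeAbelianGroup.map (imap φ) (FreeAbelianGroup.of ⟨1, 1, _⟩)) :
      K0 B) = QuotientAddGroup.mk (FreeAbelianGroup.of ⟨1, 1, _⟩)
    rw [FreeAbelianGroup.map_of_apply]
    have h : imap φ ⟨1, 1, one_mul 1⟩ = (⟨1, 1, one_mul 1⟩ : IdemMat B) := by
      unfold imap
      congr 1
      exact Matrix.map_one φ (map_zero φ) (map_one φ)
    rw [h]
  · intro A _ _ z
    induction z using QuotientAddGroup.induction_on with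
    | H x =>
      show (QuotientAddGroup.mk (FreeAbelianGroup.map (gmap (RingHom.id A)) x) : K1 A) = _
      rw [FUN_gmap_id, FreeAbelianGroup.map_id_apply]
  · intro A B C _ _ _ _ _ _ φ ψ hφ hψ h z
    induction z using QuotientAddGroup.induction_on with
    | H x =>
      show (QuotientAddGroup.mk (FreeAbelianGroup.map (gmap (ψ.comp φ)) x) : K1 C) =
        QuotientAddGroup.mk (FreeAbelianGroup.map (gmap ψ) (FreeAbelianGroup.map (gmap φ) x))
      rw [FUN_gmap_comp, FreeAbelianGroup.map_comp_apply]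

end Pool.Agent.PV
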