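import Pool.Agent.helper77.PV.SpecK

set_option autoImplicit false

namespace Pool.Agent.PV

open Pool.Agent.CZ Pool.Agent.PVH

theorem KDS : KDS_stmt := by
  intro P₀ P S' T' _ _ _ _ F j χ hsurj hinj S _ σ
  let f : P₀ × ↥χ.ker →+ P := F.coprod (j.comp χ.ker.subtype)
  have hf : ∀ y : P₀ × ↥χ.ker, f y = F y.1 + j y.2 := fun y => rfl
  have hbij : Function.Bijective f := by
    constructor
    · rw [injective_iff_map_eq_zero]
      rintro ⟨x, s, hs⟩ h
      obtain ⟨h1, h2⟩ := hinj x s hs h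
      refine Prod.ext h1 (Subtype.ext h2)
    · intro z
      obtain ⟨x, s, hs, hz⟩ := hsurj z
      exact ⟨(x, ⟨s, hs⟩), hz.symm⟩
  let e : P₀ × ↥χ.ker ≃+ P := AddEquiv.ofBijective f hbij
  have he : ∀ y, e y = f y := fun y => rfl
  refine ⟨e.symm.trans (AddEquiv.prodCongr (AddEquiv.refl P₀) σ), ?_, ?_⟩
  · intro x
    have h1 : e.symm (F x) = (x, 0) := by
      rw [AddEquiv.symm_apply_eq, he, hf]
      show F x = F x + j 0
      rw [map_zero, add_zero]
    show (AddEquiv.prodCongr (AddEquiv.refl P₀) σ) (e.symm (F x)) = (x, 0)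
    rw [h1]
    show ((x : P₀), σ 0) = (x, 0)
    rw [map_zero]
  · intro s hs
    have h1 : e.symm (j s) = (0, ⟨s, hs⟩) := by
      rw [AddEquiv.symm_apply_eq, he, hf]
      show j s = F 0 + j s
      rw [map_zero, zero_add]
    show (AddEquiv.prodCongr (AddEquiv.refl P₀) σ) (e.symm (j s)) = (0, σ ⟨s, hs⟩)
    rw [h1]
    rfl

end Pool.Agent.PV
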