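import Pool.Agent.helper72.PV.SpecH

set_option autoImplicit false

open Finset

namespace Pool.Agent.PVH

open Pool.Agent.PV Pool.Agent.CZ

theorem UNQ_bd {Ω : Type} [TopologicalSpace Ω] (φ : C(Ω, ℝ) →ₗ[ℝ] ℝ)
    (hφ : ∀ f : C(Ω, ℝ), (∀ x, 0 ≤ f x) → 0 ≤ φ f) (h1 : φ 1 = 1) (g : C(Ω, ℝ))
    (hg : ∀ x, |g x| ≤ 1) : |φ g| ≤ 1 := by
  have e1 := hφ (1 - g) (fun x => by
    have := (abs_le.1 (hg x)).2
    show 0 ≤ (1 : ℝ) - g x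
    linarith)
  have e2 := hφ (1 + g) (fun x => by
    have := (abs_le.1 (hg x)).1
    show 0 ≤ (1 : ℝ) + g x
    linarith)
  rw [map_sub, h1] at e1
  rw [map_add, h1] at e2
  rw [abs_le]
  constructor <;> linarith

theorem UNQ (hDEN : DEN_stmt) : UNQ_stmt := by
  intro Ω _ _ _ _ φ ψ hφ hψ hφ1 hψ1 h
  refine LinearMap.ext fun f => ?_
  by_contra hne
  have hd : 0 < |φ f - ψ f| := abs_pos.2 (sub_ne_zero.2 hne)
  obtain ⟨n, hn⟩ := exists_nat_gt (2 / |φ f - ψ f|)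
  rw [div_lt_iff₀ hd] at hn
  obtain ⟨f', hf'⟩ := hDEN Ω ((n : ℝ) • f)
  have hg : ∀ x, |((n : ℝ) • f - intR f') x| ≤ 1 := fun x => hf' x
  have b1 := UNQ_bd φ hφ hφ1 _ hg
  have b2 := UNQ_bd ψ hψ hψ1 _ hg
  rw [map_sub, map_smul, smul_eq_mul] at b1 b2
  rw [h f'] at b1
  rw [abs_le] at b1 b2
  have b3 : |(n : ℝ) * (φ f - ψ f)| ≤ 2 := by
    rw [abs_le]
    constructor <;> linarith [b1.1, b1.2, b2.1, b2.2]
  rw [abs_mul, abs_of_nonneg (Nat.cast_nonneg n)] at b3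
  linarith

end Pool.Agent.PVH
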